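import Pool.Agent.K1H42.HP.Defs
import Pool.Agent.K1H42.HP.All

/-!
# MP_5499ac_co, Q1: the smallest admissible additive range is `M_q = 1` for every prime power `q`

An integer `M` is admissible for the finite field `F` with `q` elements if for all large `k` and all
`n ≥ 2k + M` every intersecting family of `k`-dimensional subspaces of an `n`-dimensional space over
`F` has at most `[k + 1]_q` high points, that is, points of degree larger than
`binom(n - 2, k - 2)_q`; equivalently the `(1 + [k + 1]_q)`-th largest point degree is at most
`binom(n - 2, k - 2)_q`.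

We prove that `M` is admissible if and only if `M ≥ 1`, for every finite field `F`.  The starting
files of this problem have this for `q ≥ 3`, and `M_2 = 1` or `M_2 = 2` for `q = 2`.  The proof
combines the library `Pool.Agent.K1H42.HP` (the upper bound for `k ≥ 1000` and `n ≥ 2k + 1`, and the
example with more than `[k + 1]_q` high points for `n = 2k`).
-/

set_option autoImplicit false

namespace Pool.Agent.W2helper84.Unused.AllFields

open Module Pool.Agent.K1H42.HP.Final

/-- The degrees of the points (1-dimensional subspaces) of `V`, listed in non-increasing order: the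
`i`-th largest point degree is at most `B` if and only if fewer than `i` points have a degree larger
than `B`. -/
def DegreeAtMost {F V : Type} [Field F] [AddCommGroup V] [Module F V]
    (𝓕 : Set (Submodule F V)) (i B : ℕ) : Prop :=
  {P : Submodule F V | finrank F P = 1 ∧ B < degree 𝓕 P}.ncard < i

/-- The integer `M` is admissible for the finite field `F`: there is `k₀` such that for all
`k ≥ k₀`, all `n ≥ 2k + M`, every `n`-dimensional vector space `V` over `F` and every intersecting
family `𝓕` of `k`-dimensional subspaces of `V`, the `(1 + [k + 1]_q)`-th largest point degree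
of `𝓕` is at most `binom(n - 2, k - 2)_q`. -/
def Admissible (F : Type) [Field F] (M : ℤ) : Prop :=
  ∃ k₀ : ℕ, ∀ k n : ℕ, k₀ ≤ k → 2 * (k : ℤ) + M ≤ n →
    ∀ (V : Type) [AddCommGroup V] [Module F V], finrank F V = n →
      ∀ 𝓕 : Set (Submodule F V), IsIntersecting k 𝓕 →
        DegreeAtMost 𝓕 (1 + num F (k + 1)) (gauss F (n - 2) (k - 2))

lemma degreeAtMost_iff {F V : Type} [Field F] [AddCommGroup V] [Module F V]
    (𝓕 : Set (Submodule F V)) (n k : ℕ) :
    DegreeAtMost 𝓕 (1 + num F (k + 1)) (gauss F (n - 2) (k - 2)) ↔
      (highPoints n k 𝓕).ncard ≤ num F (k + 1) := by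
  unfold DegreeAtMost highPoints
  omega

/-- **The optimal additive range.** For every finite field `F` (so for every prime power `q`), an
integer `M` is admissible if and only if `M ≥ 1`; so admissible integers exist and the smallest
one is `M_q = 1`. -/
theorem result (F : Type) [Field F] [Finite F] :
    (∀ M : ℤ, Admissible F M ↔ 1 ≤ M) ∧ IsLeast {M : ℤ | Admissible F M} 1 := by
  have key : ∀ M : ℤ, Admissible F M ↔ 1 ≤ M := by
    intro M
    constructor
    · rintro ⟨k₀, h⟩
      by_contra hM
      have hk0 : k₀ ≤ max k₀ 4 := le_max_left _ _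
      have hk4 : 4 ≤ max k₀ 4 := le_max_right _ _
      have hV : finrank F (Fin (2 * max k₀ 4) → F) = 2 * max k₀ 4 := by simp
      obtain ⟨𝓕, h1, h2⟩ :=
        Pool.Agent.K1H42.HP.lower_2k F (max k₀ 4) hk4 (Fin (2 * max k₀ 4) → F) hV
      have h3 := h (max k₀ 4) (2 * max k₀ 4) hk0 (by push_cast; omega)
        (Fin (2 * max k₀ 4) → F) hV 𝓕 h1
      rw [degreeAtMost_iff] at h3
      omega
    · intro hM
      refine ⟨1000, fun k n hk hn V _ _ hV 𝓕 h𝓕 => ?_⟩
      rw [degreeAtMost_iff]
      exact Pool.Agent.K1H42.HP.upper_all F n k hk (by omega) V hV 𝓕 h𝓕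
  refine ⟨key, (key 1).2 le_rfl, fun M hM => (key M).1 hM⟩

end Pool.Agent.W2helper84.Unused.AllFields
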